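import Pool.Agent.H74R2.WT.Stmts

/-! Task I of helper74's project WT: the exchange argument. (helper968) -/

set_option autoImplicit false

open MeasureTheory Set

namespace H74R2.WT

namespace I968

noncomputable section

/-- translate -/
def sh (v : ℂ) (A : Set ℂ) : Set ℂ := (fun z => z + v) '' A

theorem mem_sh {v : ℂ} {A : Set ℂ} {z : ℂ} : z ∈ sh v A ↔ z - v ∈ A := by
  constructor
  · rintro ⟨w, hw, rfl⟩
    simpa using hw
  · intro h
    exact ⟨z - v, h, by simp⟩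

theorem sh_zero (A : Set ℂ) : sh 0 A = A := by
  ext z; simp [mem_sh]

theorem sh_sh (v w : ℂ) (A : Set ℂ) : sh v (sh w A) = sh (v + w) A := by
  ext z; simp only [mem_sh, sub_sub]

theorem T_int {T : Set (Set ℂ)} {v : ℂ} (h : ∀ A : Set ℂ, A ∈ T ↔ sh v A ∈ T) (n : ℤ) :
    ∀ A : Set ℂ, A ∈ T ↔ sh (n * v) A ∈ T := by
  induction n using Int.induction_on with
  | zero => intro A; simp [sh_zero]
  | succ n ih =>
    intro A
    rw [ih A, h, sh_sh]
    have : v + ((n : ℤ) : ℂ) * v = (((n : ℤ) + 1 : ℤ) : ℂ) * v := by push_cast; ring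
    rw [this]
  | pred n ih =>
    intro A
    rw [ih A, h (sh (((-(n:ℤ) - 1 : ℤ) : ℂ) * v) A), sh_sh]
    have : v + ((-(n:ℤ) - 1 : ℤ) : ℂ) * v = ((-(n : ℤ) : ℤ) : ℂ) * v := by push_cast; ring
    rw [this]

/-- lattice vectors -/
def tv (v1 v2 : ℂ) (m : ℤ × ℤ) : ℂ := m.1 * v1 + m.2 * v2

theorem tv_neg (v1 v2 : ℂ) (m : ℤ × ℤ) : tv v1 v2 (-m) = - tv v1 v2 m := by
  unfold tv; simp only [Prod.fst_neg, Prod.snd_neg]; push_cast; ring

theorem T_tv {T : Set (Set ℂ)} {v1 v2 : ℂ} (h1 : ∀ A : Set ℂ, A ∈ T ↔ sh v1 A ∈ T)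
    (h2 : ∀ A : Set ℂ, A ∈ T ↔ sh v2 A ∈ T) (m : ℤ × ℤ) (A : Set ℂ) :
    A ∈ T ↔ sh (tv v1 v2 m) A ∈ T := by
  unfold tv
  rw [T_int h2 m.2 A, T_int h1 m.1 (sh (m.2 * v2) A), sh_sh]

/-- the lower left corner -/
def pp (A : Set ℂ) : ℂ := ⟨sInf (Complex.re '' A), sInf (Complex.im '' A)⟩

theorem pp_re {A : Set ℂ} (hA : IsCompact A) (hn : A.Nonempty) :
    IsLeast (Complex.re '' A) (pp A).re :=
  (hA.image Complex.continuous_re).isLeast_sInf (hn.image _)

theorem pp_im {A : Set ℂ} (hA : IsCompact A) (hn : A.Nonempty) :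
    IsLeast (Complex.im '' A) (pp A).im :=
  (hA.image Complex.continuous_im).isLeast_sInf (hn.image _)

theorem pp_sh {A : Set ℂ} (hA : IsCompact A) (hn : A.Nonempty) (v : ℂ) :
    pp (sh v A) = pp A + v := by
  have h1 := pp_re hA hn
  have h2 := pp_im hA hn
  apply Complex.ext
  · have : IsLeast (Complex.re '' sh v A) ((pp A).re + v.re) := by
      constructor
      · obtain ⟨a, ha, hae⟩ := h1.1
        refine ⟨a + v, mem_sh.mpr (by simpa using ha), ?_⟩
        rw [Complex.add_re, hae]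
      · rintro x ⟨z, hz, rfl⟩
        have := h1.2 ⟨z - v, mem_sh.mp hz, rfl⟩
        rw [Complex.sub_re] at this
        linarith
    rw [Complex.add_re]
    exact this.csInf_eq
  · have : IsLeast (Complex.im '' sh v A) ((pp A).im + v.im) := by
      constructor
      · obtain ⟨a, ha, hae⟩ := h2.1
        refine ⟨a + v, mem_sh.mpr (by simpa using ha), ?_⟩
        rw [Complex.add_im, hae]
      · rintro x ⟨z, hz, rfl⟩
        have := h2.2 ⟨z - v, mem_sh.mp hz, rfl⟩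
        rw [Complex.sub_im] at this
        linarith
    rw [Complex.add_im]
    exact this.csInf_eq

theorem dist_pp {A : Set ℂ} (hA : IsCompact A) (hn : A.Nonempty) {D : ℝ}
    (hD : ∀ x ∈ A, ∀ y ∈ A, dist x y ≤ D) {z : ℂ} (hz : z ∈ A) : ‖z - pp A‖ ≤ 2 * D := by
  obtain ⟨a, ha, hae⟩ := (pp_re hA hn).1
  obtain ⟨b, hb, hbe⟩ := (pp_im hA hn).1
  have h1 := hD z hz a ha
  have h2 := hD z hz b hb
  rw [Complex.dist_eq] at h1 h2
  have h3 := Complex.abs_re_le_norm (z - a)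
  have h4 := Complex.abs_im_le_norm (z - b)
  have h5 := Complex.norm_le_abs_re_add_abs_im (z - pp A)
  rw [Complex.sub_re] at h3 h5
  rw [Complex.sub_im] at h4 h5
  rw [← hae, ← hbe] at h5
  linarith

theorem line_null (a b c : ℝ) (h : a ≠ 0 ∨ b ≠ 0) :
    volume {z : ℂ | a * z.re + b * z.im = c} = 0 := by
  by_cases hn : ∃ z0 : ℂ, a * z0.re + b * z0.im = c
  · obtain ⟨z0, hz0⟩ := hn
    let ℓ : ℂ →ₗ[ℝ] ℝ := a • Complex.reLm + b • Complex.imLm
    have hℓ : ∀ z, ℓ z = a * z.re + b * z.im := fun z => by simp [ℓ]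
    have hs : {z : ℂ | a * z.re + b * z.im = c} =
        (AffineSubspace.mk' z0 (LinearMap.ker ℓ) : Set ℂ) := by
      ext z
      rw [SetLike.mem_coe, AffineSubspace.mem_mk', LinearMap.mem_ker, vsub_eq_sub, map_sub, hℓ, hℓ,
        hz0, sub_eq_zero]
      rfl
    rw [hs]
    apply Measure.addHaar_affineSubspace
    intro htop
    have h1 : (z0 + ⟨a, b⟩ : ℂ) ∈ (AffineSubspace.mk' z0 (LinearMap.ker ℓ) : Set ℂ) := by
      rw [htop]; trivial
    rw [← hs] at h1
    have h2 : a * (z0.re + a) + b * (z0.im + b) = c := h1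
    have h3 : a ^ 2 + b ^ 2 = 0 := by linarith [h2, hz0, mul_self_nonneg a]
    rcases h with h | h
    · have := pow_pos (abs_pos.mpr h) 2
      rw [sq_abs] at this
      nlinarith [sq_nonneg b]
    · have := pow_pos (abs_pos.mpr h) 2
      rw [sq_abs] at this
      nlinarith [sq_nonneg a]
  · have : {z : ℂ | a * z.re + b * z.im = c} = ∅ := by
      ext z
      simp only [mem_ofPred_eq, mem_empty_iff_false, iff_false]
      exact fun hz => hn ⟨z, hz⟩
    rw [this, measure_empty]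

theorem frontier_null {K : Subfield ℝ} {G : Set ℂ} (hG : Gd K G) : volume (frontier G) = 0 := by
  obtain ⟨L, hL, hL'⟩ := hG.lines
  refine measure_mono_null hL' ?_
  have : {z : ℂ | ∃ q ∈ L, q.1 * z.re + q.2.1 * z.im = q.2.2} =
      ⋃ q ∈ L, {z : ℂ | q.1 * z.re + q.2.1 * z.im = q.2.2} := by
    ext z; simp
  rw [this]
  refine (measure_biUnion_null_iff L.countable_toSet).mpr fun q hq => ?_
  exact line_null _ _ _ (hL q hq).2.2

theorem exists_ball {K : Subfield ℝ} {F : Set ℂ} {v1 v2 : ℂ} (hF : Gd K F)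
    (hu : ∀ z : ℂ, ∃! m : ℤ × ℤ, z - tv v1 v2 m ∈ F) :
    ∃ (z0 : ℂ) (δ : ℝ), 0 < δ ∧ Metric.ball z0 δ ⊆ F := by
  by_contra hcon
  have hint : interior F = ∅ := by
    by_contra h
    obtain ⟨z0, hz0⟩ := nonempty_iff_ne_empty.mpr h
    obtain ⟨δ, hδ, hb⟩ := Metric.isOpen_iff.mp isOpen_interior z0 hz0
    exact hcon ⟨z0, δ, hδ, hb.trans interior_subset⟩
  have h0 : volume F = 0 := by
    refine measure_mono_null ?_ (frontier_null hF)
    intro z hz
    rw [frontier, hint, sdiff_empty]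
    exact subset_closure hz
  have h1 : (univ : Set ℂ) ⊆ ⋃ m : ℤ × ℤ, (fun z => z - tv v1 v2 m) ⁻¹' F := by
    intro z _
    obtain ⟨m, hm, _⟩ := hu z
    exact mem_iUnion.mpr ⟨m, hm⟩
  have h2 : volume (⋃ m : ℤ × ℤ, (fun z => z - tv v1 v2 m) ⁻¹' F) = 0 := by
    refine measure_iUnion_null fun m => ?_
    have := (measurePreserving_sub_right (volume : Measure ℂ) (tv v1 v2 m)).quasiMeasurePreserving
    exact this.preimage_null h0
  have h3 : volume (univ : Set ℂ) = 0 := measure_mono_null h1 h2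
  exact (NeZero.ne (volume : Measure ℂ)) (Measure.measure_univ_eq_zero.mp h3)

theorem tv_finite {K : Subfield ℝ} {F : Set ℂ} {v1 v2 : ℂ} (hF : Gd K F)
    (hu : ∀ z : ℂ, ∃! m : ℤ × ℤ, z - tv v1 v2 m ∈ F) (ρ : ℝ) :
    {m : ℤ × ℤ | ‖tv v1 v2 m‖ ≤ ρ}.Finite := by
  obtain ⟨z0, δ, hδ, hb⟩ := exists_ball hF hu
  have hsep : ∀ m m' : ℤ × ℤ, ‖tv v1 v2 m - tv v1 v2 m'‖ < δ → m = m' := by
    intro m m' h
    obtain ⟨m0, hm0, hm0'⟩ := hu (z0 + tv v1 v2 m)
    have h1 : m = m0 := hm0' m (hb (by simpa using hδ))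
    have h2 : m' = m0 := hm0' m' (hb (by
      rw [Metric.mem_ball, Complex.dist_eq]
      have : z0 + tv v1 v2 m - tv v1 v2 m' - z0 = tv v1 v2 m - tv v1 v2 m' := by ring
      rw [this]; exact h))
    rw [h1, h2]
  obtain ⟨t, htf, ht⟩ := Metric.totallyBounded_iff.mp
    (isCompact_closedBall (0:ℂ) ρ).totallyBounded (δ/2) (by linarith)
  have hch : ∀ m : ℤ × ℤ, m ∈ {m : ℤ × ℤ | ‖tv v1 v2 m‖ ≤ ρ} → ∃ y ∈ t, dist (tv v1 v2 m) y < δ/2 := by
    intro m hm
    have := ht (show tv v1 v2 m ∈ Metric.closedBall (0:ℂ) ρ by simpa using hm)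
    simpa using this
  choose! f hf hf' using hch
  refine Set.Finite.of_injOn (f := f) (fun m hm => hf m hm) ?_ htf
  intro m hm m' hm' he
  apply hsep
  have h1 := hf' m hm
  have h2 := hf' m' hm'
  rw [← he] at h2
  rw [← Complex.dist_eq]
  calc _ ≤ _ := dist_triangle_right _ _ (f m)
    _ < δ := by linarith

theorem add_fin (hadd : P_add) {K : Subfield ℝ} {σ : K →+* ℝ} {φ : ℝ →+ ℝ} (hφ : Semi σ φ)
    {ι : Type*} (s : Finset ι) (f : ι → Set ℂ) (G : Set ℂ) (hG : Gd K G)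
    (hf : ∀ i ∈ s, Gd K (f i)) (h : ∀ᵐ z : ℂ, ind G z = ∑ i ∈ s, ind (f i) z) :
    Ar σ φ G = ∑ i ∈ s, Ar σ φ (f i) := by
  have h1 := hadd K σ φ hφ ((1, G) :: s.toList.map (fun i => ((-1 : ℤ), f i))) ?_ ?_
  · simp only [List.map_cons, List.map_map, List.sum_cons] at h1
    have h2 : (List.map ((fun q : ℤ × Set ℂ => (q.1 : ℝ) * Ar σ φ q.2) ∘
        fun i => ((-1 : ℤ), f i)) s.toList).sum = ∑ i ∈ s, - Ar σ φ (f i) := by
      rw [Finset.sum_map_toList]
      exact Finset.sum_congr rfl fun i _ => by simp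
    rw [h2, Finset.sum_neg_distrib] at h1
    push_cast at h1
    linarith
  · intro q hq
    simp only [List.mem_cons, List.mem_map, Finset.mem_toList] at hq
    rcases hq with rfl | ⟨i, hi, rfl⟩
    · exact hG
    · exact hf i hi
  · filter_upwards [h] with z hz
    simp only [List.map_cons, List.map_map, List.sum_cons]
    have h2 : (List.map ((fun q : ℤ × Set ℂ => (q.1 : ℝ) * ind q.2 z) ∘
        fun i => ((-1 : ℤ), f i)) s.toList).sum = ∑ i ∈ s, - ind (f i) z := by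
      rw [Finset.sum_map_toList]
      exact Finset.sum_congr rfl fun i _ => by simp
    rw [h2, Finset.sum_neg_distrib, ← hz]
    push_cast
    ring

theorem gd_sh (hg : P_gdlin) {K : Subfield ℝ} {G : Set ℂ} (v : ℂ) (hG : Gd K G) :
    Gd K (sh v G) := by
  have h := hg K 1 0 0 1 v G K.one_mem K.zero_mem K.zero_mem K.one_mem (by norm_num) hG
  have e : (fun z : ℂ => (⟨1 * z.re + 0 * z.im, 0 * z.re + 1 * z.im⟩ : ℂ) + v) =
      fun z => z + v := by
    funext z
    congr 1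
    apply Complex.ext <;> simp
  rw [e] at h
  exact h

theorem ind_of_mem {G : Set ℂ} {z : ℂ} (h : z ∈ G) : ind G z = 1 := by
  unfold ind; rw [if_pos h]

theorem ind_of_not_mem {G : Set ℂ} {z : ℂ} (h : z ∉ G) : ind G z = 0 := by
  unfold ind; rw [if_neg h]

theorem main (hadd : P_add) (htr : P_tr) (hG2 : T_G2) : P_exch := by
  classical
  obtain ⟨hgd, hint⟩ := hG2
  intro K σ φ hφ T c0 D v1 v2 F hT hall hcov hdisj hfin hcount hdiam hv1 hv2 hF hu0
  have hu : ∀ z : ℂ, ∃! m : ℤ × ℤ, z - tv v1 v2 m ∈ F := by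
    intro z
    have h := hu0 z
    have e : ∀ m : ℤ × ℤ, z - m.1 * v1 - m.2 * v2 = z - tv v1 v2 m := by
      intro m; unfold tv; ring
    simp only [e] at h
    exact h
  have hTm : ∀ (m : ℤ × ℤ) (A : Set ℂ), A ∈ T ↔ sh (tv v1 v2 m) A ∈ T :=
    T_tv (fun A => hv1 A) (fun A => hv2 A)
  have hTm' : ∀ (m : ℤ × ℤ) (A : Set ℂ), A ∈ T ↔ sh (-(tv v1 v2 m)) A ∈ T := by
    intro m A
    rw [← tv_neg]
    exact hTm (-m) A
  have hc : ∀ A ∈ T, IsCompact A := fun A hA => (hall A hA).1.cpt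
  have hn : ∀ A ∈ T, A.Nonempty := fun A hA => (hall A hA).1.ne.mono interior_subset
  obtain ⟨r, hr⟩ := hF.bdd.subset_closedBall (0 : ℂ)
  have hr' : ∀ z ∈ F, ‖z‖ ≤ r := fun z hz => by simpa using hr hz
  -- the finite set `R`
  have hRfin : {A | A ∈ T ∧ pp A ∈ F}.Finite := by
    refine (hfin (r + 2 * D)).subset ?_
    rintro A ⟨hA, hp⟩
    refine ⟨hA, ?_⟩
    obtain ⟨a, ha⟩ := hn A hA
    refine ⟨a, ha, ?_⟩
    have h1 := dist_pp (hc A hA) (hn A hA) (hdiam A hA) ha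
    have h2 := hr' _ hp
    have h3 : ‖a‖ ≤ ‖a - pp A‖ + ‖pp A‖ := by
      have := norm_add_le (a - pp A) (pp A)
      simpa using this
    rw [mem_closedBall_zero_iff]
    linarith
  have hLfin : {m : ℤ × ℤ | ∃ A, (A ∈ T ∧ pp A ∈ F) ∧ (A ∩ sh (tv v1 v2 m) F).Nonempty}.Finite := by
    refine (tv_finite hF hu (2 * r + 2 * D)).subset ?_
    rintro m ⟨A, ⟨hA, hp⟩, a, ha, ha'⟩
    have h1 := dist_pp (hc A hA) (hn A hA) (hdiam A hA) ha
    have h2 := hr' _ hp
    have h4 := hr' _ (mem_sh.mp ha')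
    have h3 : ‖tv v1 v2 m‖ ≤ ‖a - pp A‖ + ‖pp A‖ + ‖a - tv v1 v2 m‖ := by
      have e : tv v1 v2 m = ((a - pp A) + pp A) - (a - tv v1 v2 m) := by ring
      calc ‖tv v1 v2 m‖ = ‖((a - pp A) + pp A) - (a - tv v1 v2 m)‖ := by rw [← e]
        _ ≤ ‖(a - pp A) + pp A‖ + ‖a - tv v1 v2 m‖ := norm_sub_le _ _
        _ ≤ _ := by gcongr; exact norm_add_le _ _
    show ‖tv v1 v2 m‖ ≤ 2 * r + 2 * D
    linarith
  set R : Finset (Set ℂ) := hRfin.toFinset with hRdef
  set L0 : Finset (ℤ × ℤ) := hLfin.toFinset with hLdef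
  have hR : ∀ A, A ∈ R ↔ A ∈ T ∧ pp A ∈ F := fun A => by
    rw [hRdef, Set.Finite.mem_toFinset]; rfl
  have hL : ∀ m, m ∈ L0 ↔ ∃ A, (A ∈ T ∧ pp A ∈ F) ∧ (A ∩ sh (tv v1 v2 m) F).Nonempty := fun m => by
    rw [hLdef, Set.Finite.mem_toFinset]; rfl
  refine ⟨R.card, ?_, ?_⟩
  · rw [Finset.card_pos]
    obtain ⟨B, hB⟩ := hT
    obtain ⟨m, hm, _⟩ := hu (pp B)
    refine ⟨sh (-(tv v1 v2 m)) B, (hR _).mpr ⟨(hTm' m B).mp hB, ?_⟩⟩
    rw [pp_sh (hc B hB) (hn B hB), ← sub_eq_add_neg]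
    exact hm
  · -- (1)
    have h1 : ∀ A ∈ R, Ar σ φ A = ∑ m ∈ L0, Ar σ φ (A ∩ sh (tv v1 v2 m) F) := by
      intro A hA
      have hAT := (hR A).mp hA
      refine add_fin hadd hφ L0 (fun m => A ∩ sh (tv v1 v2 m) F) A (hall A hAT.1).2.1
        (fun m _ => hint K _ _ (hall A hAT.1).2.1 (gd_sh hgd _ hF)) (Filter.Eventually.of_forall ?_)
      intro z
      by_cases hz : z ∈ A
      · obtain ⟨m, hm, hm'⟩ := hu z
        have hmem : z ∈ A ∩ sh (tv v1 v2 m) F := ⟨hz, mem_sh.mpr hm⟩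
        rw [Finset.sum_eq_single m, ind_of_mem hz, ind_of_mem hmem]
        · intro m' _ hne
          refine ind_of_not_mem fun h => hne (hm' m' (mem_sh.mp h.2))
        · intro hnot
          exact absurd ((hL m).mpr ⟨A, hAT, z, hmem⟩) hnot
      · rw [ind_of_not_mem hz, Finset.sum_eq_zero]
        intro m _
        exact ind_of_not_mem fun h => hz h.1
    -- (2)
    have h2 : Ar σ φ F = ∑ x ∈ R ×ˢ L0, Ar σ φ (sh (-(tv v1 v2 x.2)) x.1 ∩ F) := by
      refine add_fin hadd hφ (R ×ˢ L0) (fun x => sh (-(tv v1 v2 x.2)) x.1 ∩ F) F hF ?_ ?_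
      · intro x hx
        have hx1 := (hR x.1).mp (Finset.mem_product.mp hx).1
        exact hint K _ _ (gd_sh hgd _ (hall x.1 hx1.1).2.1) hF
      · have hnull : volume (⋃ B ∈ T, frontier B) = 0 :=
          (measure_biUnion_null_iff hcount).mpr fun B hB => frontier_null (hall B hB).2.1
        have hae : ∀ᵐ z : ℂ, z ∉ ⋃ B ∈ T, frontier B := measure_eq_zero_iff_ae_notMem.mp hnull
        filter_upwards [hae] with z hz
        have hin : ∀ B ∈ T, z ∈ B → z ∈ interior B := by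
          intro B hB hzB
          by_contra hcon
          apply hz
          refine mem_iUnion₂.mpr ⟨B, hB, ?_⟩
          exact ⟨subset_closure hzB, hcon⟩
        have huniq : ∀ B ∈ T, ∀ B' ∈ T, z ∈ B → z ∈ B' → B = B' := by
          intro B hB B' hB' h h'
          by_contra hne
          exact Set.disjoint_left.mp (hdisj hB hB' hne) (hin B hB h) (hin B' hB' h')
        by_cases hzF : z ∈ F
        · obtain ⟨B, hB, hzB⟩ : ∃ B ∈ T, z ∈ B := by
            have : z ∈ ⋃₀ T := by rw [hcov]; trivial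
            exact this
          obtain ⟨m0, hm0, hm0'⟩ := hu (pp B)
          have hA0 : sh (-(tv v1 v2 m0)) B ∈ T := (hTm' m0 B).mp hB
          have hA0R : sh (-(tv v1 v2 m0)) B ∈ R := by
            refine (hR _).mpr ⟨hA0, ?_⟩
            rw [pp_sh (hc B hB) (hn B hB), ← sub_eq_add_neg]
            exact hm0
          have hBe : sh (-(tv v1 v2 (-m0))) (sh (-(tv v1 v2 m0)) B) = B := by
            rw [tv_neg, neg_neg, sh_sh, add_neg_cancel, sh_zero]
          have hm1 : -m0 ∈ L0 := by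
            refine (hL _).mpr ⟨_, (hR _).mp hA0R, z + tv v1 v2 (-m0), ?_, ?_⟩
            · rw [mem_sh, tv_neg, sub_neg_eq_add, neg_add_cancel_right]; exact hzB
            · rw [mem_sh, add_sub_cancel_right]; exact hzF
          rw [Finset.sum_eq_single (sh (-(tv v1 v2 m0)) B, -m0), ind_of_mem hzF, ind_of_mem]
          · refine ⟨?_, hzF⟩
            show z ∈ sh (-(tv v1 v2 (-m0))) (sh (-(tv v1 v2 m0)) B)
            rw [hBe]; exact hzB
          · rintro ⟨A, m⟩ hx hne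
            refine ind_of_not_mem fun h => hne ?_
            have hAR := (hR A).mp (Finset.mem_product.mp hx).1
            have hzA : z ∈ sh (-(tv v1 v2 m)) A := h.1
            have hB' := huniq _ ((hTm' m A).mp hAR.1) B hB hzA hzB
            have hpp : pp B = pp A + -(tv v1 v2 m) := by
              rw [← hB', pp_sh (hc A hAR.1) (hn A hAR.1)]
            have hm : -m = m0 := by
              apply hm0'
              show pp B - tv v1 v2 (-m) ∈ F
              rw [hpp, tv_neg, sub_neg_eq_add, neg_add_cancel_right]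
              exact hAR.2
            have hm2 : m = -m0 := by rw [← hm, neg_neg]
            have hA : A = sh (-(tv v1 v2 m0)) B := by
              rw [← hB', ← hm, tv_neg, neg_neg, sh_sh, add_neg_cancel, sh_zero]
            rw [hm2, hA]
          · intro hnot
            exact absurd (Finset.mem_product.mpr ⟨hA0R, hm1⟩) hnot
        · rw [ind_of_not_mem hzF, Finset.sum_eq_zero]
          intro m _
          exact ind_of_not_mem fun h => hzF h.2
    -- (3)
    have h3 : ∀ A ∈ R, ∀ m, Ar σ φ (sh (-(tv v1 v2 m)) A ∩ F) =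
        Ar σ φ (A ∩ sh (tv v1 v2 m) F) := by
      intro A hA m
      have hAT := (hR A).mp hA
      have h := htr K σ φ hφ (sh (-(tv v1 v2 m)) A ∩ F) (tv v1 v2 m)
        (hint K _ _ (gd_sh hgd _ (hall A hAT.1).2.1) hF)
      rw [← h]
      congr 1
      ext z
      rw [show (fun z : ℂ => z + tv v1 v2 m) '' (sh (-(tv v1 v2 m)) A ∩ F) =
        sh (tv v1 v2 m) (sh (-(tv v1 v2 m)) A ∩ F) from rfl, mem_sh]
      simp only [mem_inter_iff, mem_sh, sub_neg_eq_add, sub_add_cancel]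
    rw [h2, Finset.sum_product]
    have h4 : ∀ A ∈ R, ∑ m ∈ L0, Ar σ φ (sh (-(tv v1 v2 m)) A ∩ F) = c0 := by
      intro A hA
      rw [Finset.sum_congr rfl fun m _ => h3 A hA m, ← h1 A hA]
      exact (hall A ((hR A).mp hA).1).2.2
    rw [Finset.sum_congr rfl h4, Finset.sum_const, nsmul_eq_mul]

end

end I968

theorem t_I : T_I := I968.main

end H74R2.WT
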